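import Mathlib

/-!
# A geometrically nilpotent, non nilpotent curve for a two-variable polynomial map

For a finite field `F` with `q` elements let
`T (x, y) = (x ^ q - x y ^ (q - 1), (y ^ q - x ^ (q - 1) y) ^ q)` and let `Y` be the curve
`y = x ^ q`.  Then `T ^ k (s, s ^ q) = (P_k (s), P_k (s ^ (q ^ (k + 1))))`, where `P_k` is the
monic `F`-linear polynomial whose kernel is spanned by `s ^ q, …, s ^ (q ^ k)`.
-/

namespace Pool.Agent.Results.MP_12bcff_ag.TwoVariable

open MvPolynomial

/-- The map on geometric points of the affine plane induced by a pair of polynomials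
over `F`. -/
noncomputable def geomMap {F : Type*} [Field F] (T : Fin 2 → MvPolynomial (Fin 2) F)
    (P : Fin 2 → AlgebraicClosure F) : Fin 2 → AlgebraicClosure F :=
  fun i => aeval P (T i)

/-- The geometric points of the closed subvariety of the affine plane over `F` cut out by the
ideal `I`. -/
def geomPoints {F : Type*} [Field F] (I : Ideal (MvPolynomial (Fin 2) F)) :
    Set (Fin 2 → AlgebraicClosure F) :=
  {P | ∀ p ∈ I, aeval P p = 0}

/-- `Y` is nilpotent with respect to `T`: one iterate sends all of `Y` to a fixed point. -/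
def IsNilpotentFor {F : Type*} [Field F] (T : Fin 2 → MvPolynomial (Fin 2) F)
    (Y : Set (Fin 2 → AlgebraicClosure F)) : Prop :=
  ∃ P, geomMap T P = P ∧ ∃ k : ℕ, 1 ≤ k ∧ (geomMap T)^[k] '' Y = {P}

/-- `Y` is geometrically nilpotent with respect to `T`: there is a fixed point to which every
geometric point of `Y` is sent by some iterate. -/
def IsGeometricallyNilpotentFor {F : Type*} [Field F] (T : Fin 2 → MvPolynomial (Fin 2) F)
    (Y : Set (Fin 2 → AlgebraicClosure F)) : Prop :=
  ∃ P, geomMap T P = P ∧ ∀ Q ∈ Y, ∃ k : ℕ, 1 ≤ k ∧ (geomMap T)^[k] Q = P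

section step

variable {R : Type*} [CommRing R]

/-- The two-variable map, on pairs. -/
def step (q : ℕ) (P : R × R) : R × R :=
  (P.1 ^ q - P.1 * P.2 ^ (q - 1), (P.2 ^ q - P.1 ^ (q - 1) * P.2) ^ q)

lemma step_map {S : Type*} [CommRing S] (f : R →+* S) (q : ℕ) (P : R × R) :
    step q (f P.1, f P.2) = (f (step q P).1, f (step q P).2) := by
  simp [step]

lemma step_iterate_map {S : Type*} [CommRing S] (f : R →+* S) (q k : ℕ) (P : R × R) :
    (step q)^[k] (f P.1, f P.2) = (f ((step q)^[k] P).1, f ((step q)^[k] P).2) := by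
  induction k generalizing P with
  | zero => simp
  | succ k ih =>
    rw [Function.iterate_succ_apply, Function.iterate_succ_apply, step_map]
    exact ih (step q P)

end step

section additive

variable {K : Type*} [Field K] (p r : ℕ) [hp : Fact p.Prime] [CharP K p]

/-- The `F_q`-linear functions `P_k`. -/
def lin (q : ℕ) (s : K) : ℕ → K → K
  | 0, x => x
  | k + 1, x => lin q s k x ^ q - lin q s k (s ^ q ^ (k + 1)) ^ (q - 1) * lin q s k x

lemma lin_zero_apply (q : ℕ) (s x : K) : lin q s 0 x = x := rfl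

lemma lin_succ_apply (q : ℕ) (s : K) (k : ℕ) (x : K) : lin q s (k + 1) x =
    lin q s k x ^ q - lin q s k (s ^ q ^ (k + 1)) ^ (q - 1) * lin q s k x := rfl

lemma lin_vanish (q : ℕ) (hq : 0 < q) (s : K) (k j : ℕ) (hj : 1 ≤ j) (hjk : j ≤ k) :
    lin q s k (s ^ q ^ j) = 0 := by
  induction k with
  | zero => omega
  | succ k ih =>
    rw [lin_succ_apply]
    rcases Nat.lt_or_ge k j with h | h
    · have : j = k + 1 := by omega
      rw [this, ← pow_succ, Nat.sub_add_cancel hq, sub_self]
    · rw [ih h, zero_pow (by omega), mul_zero, sub_zero]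

lemma sub_pow_q (q : ℕ) (hq : q = p ^ r) (x y : K) : (x - y) ^ q = x ^ q - y ^ q := by
  rw [hq, sub_pow_char_pow]

/-- Adding two vectors to the kernel in either order gives the same result. -/
lemma swap_identity (q : ℕ) (hq : q = p ^ r) (P z t : K) :
    (P ^ q - z ^ (q - 1) * P) ^ q - (t ^ q - z ^ (q - 1) * t) ^ (q - 1) *
      (P ^ q - z ^ (q - 1) * P) =
    (P ^ q - t ^ (q - 1) * P) ^ q - (z ^ q - t ^ (q - 1) * z) ^ (q - 1) *
      (P ^ q - t ^ (q - 1) * P) := by
  have hs := sub_pow_q (K := K) p r q hq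
  have hpos : 0 < q := by rw [hq]; exact pow_pos hp.out.pos _
  obtain ⟨m, rfl⟩ : ∃ m, q = m + 1 := ⟨q - 1, by omega⟩
  simp only [Nat.add_sub_cancel]
  have hneg : ((-1 : K)) ^ m = 1 := by
    have h1 : (-1 : K) ^ (m + 1) = -1 := by
      have := hs 0 1
      simpa using this
    rw [pow_succ] at h1
    linear_combination -h1
  rw [hs, hs]
  have e1 : t ^ (m + 1) - z ^ m * t = t * (t ^ m - z ^ m) := by ring
  have e2 : z ^ (m + 1) - t ^ m * z = (-1) * (z * (t ^ m - z ^ m)) := by ring
  rw [e1, e2, mul_pow t, mul_pow (-1 : K), mul_pow z, hneg, one_mul]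
  have e3 : (t ^ m - z ^ m) * (t ^ m - z ^ m) ^ m = (t ^ m) ^ (m + 1) - (z ^ m) ^ (m + 1) := by
    rw [← hs, pow_succ]
    ring
  rw [mul_pow, mul_pow]
  linear_combination (-(P ^ (m + 1))) * e3

/-- The key functional equation. -/
lemma lin_frobenius (q : ℕ) (hq : q = p ^ r) (s : K) (k : ℕ) (x : K) :
    lin q s (k + 1) (x ^ q) = (lin q s k x ^ q - lin q s k s ^ (q - 1) * lin q s k x) ^ q := by
  have hs := sub_pow_q (K := K) p r q hq
  induction k generalizing x with
  | zero =>
    rw [lin_succ_apply]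
    simp only [lin_zero_apply]
    rw [hs, mul_pow, ← pow_mul, ← pow_mul, ← pow_mul]
    simp only [zero_add, pow_one]
    ring
  | succ k ih =>
    have ih1 := ih x
    have ih2 := ih (s ^ q ^ (k + 1))
    rw [lin_succ_apply q s (k + 1) (x ^ q), ih1]
    have e0 : s ^ q ^ (k + 1 + 1) = (s ^ q ^ (k + 1)) ^ q := by
      rw [← pow_mul, ← pow_succ]
    rw [e0, ih2]
    have h := swap_identity p r q hq (lin q s k x) (lin q s k s) (lin q s k (s ^ q ^ (k + 1)))
    rw [lin_succ_apply q s k x, lin_succ_apply q s k s, ← h]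
    generalize lin q s k x ^ q - lin q s k s ^ (q - 1) * lin q s k x = A
    generalize lin q s k (s ^ q ^ (k + 1)) ^ q -
      lin q s k s ^ (q - 1) * lin q s k (s ^ q ^ (k + 1)) = B
    rw [hs (A ^ q), mul_pow, ← pow_mul B, ← pow_mul B, mul_comm q (q - 1)]

lemma lin_next (q : ℕ) (hq : q = p ^ r) (s : K) (k : ℕ) :
    lin q s (k + 1) (s ^ q ^ (k + 2)) = (lin q s k (s ^ q ^ (k + 1)) ^ q -
      lin q s k s ^ (q - 1) * lin q s k (s ^ q ^ (k + 1))) ^ q := by
  rw [← lin_frobenius p r q hq]
  congr 1
  rw [← pow_mul, ← pow_succ]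

/-- The orbit of `(s, s ^ q)`. -/
lemma step_iterate_eq (q : ℕ) (hq : q = p ^ r) (s : K) (k : ℕ) :
    (step q)^[k] (s, s ^ q) = (lin q s k s, lin q s k (s ^ q ^ (k + 1))) := by
  induction k with
  | zero => simp [lin_zero_apply]
  | succ k ih =>
    rw [Function.iterate_succ_apply', ih, step]
    simp only
    rw [lin_next p r q hq s k, lin_succ_apply q s k s]
    congr 1
    ring

lemma orbit_hits_zero (q : ℕ) (hq : q = p ^ r) (hq1 : 1 < q) (s : K) (n : ℕ) (hn : 1 ≤ n)
    (hs : s ^ q ^ n = s) : ∃ k : ℕ, 1 ≤ k ∧ (step q)^[k] (s, s ^ q) = (0, 0) := by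
  classical
  have hz : lin q s n s = 0 := by
    have := lin_vanish q (by omega) s n n hn le_rfl
    rwa [hs] at this
  have hex : ∃ k, lin q s k s = 0 := ⟨n, hz⟩
  set k := Nat.find hex with hk
  have hk0 : lin q s k s = 0 := Nat.find_spec hex
  rcases Nat.eq_zero_or_pos k with h0 | hpos
  · rw [h0, lin_zero_apply] at hk0
    refine ⟨1, le_rfl, ?_⟩
    rw [hk0]
    simp only [Function.iterate_one, step]
    rw [zero_pow (by omega), zero_pow (by omega)]
    simp [zero_pow (show q ≠ 0 by omega)]
  · obtain ⟨j, hj⟩ : ∃ j, k = j + 1 := ⟨k - 1, by omega⟩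
    have hj0 : lin q s j s ≠ 0 := Nat.find_min hex (by omega)
    refine ⟨k, hpos, ?_⟩
    rw [hj, Function.iterate_succ_apply', step_iterate_eq p r q hq, step]
    simp only
    rw [hj, lin_succ_apply] at hk0
    obtain ⟨m, rfl⟩ : ∃ m, q = m + 1 := ⟨q - 1, by omega⟩
    simp only [Nat.add_sub_cancel] at hk0 ⊢
    set z := lin (m + 1) s j s
    set t := lin (m + 1) s j (s ^ (m + 1) ^ (j + 1))
    have h1 : z * (z ^ m - t ^ m) = 0 := by linear_combination hk0
    have h2 : z ^ m - t ^ m = 0 := (mul_eq_zero.1 h1).resolve_left hj0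
    have h3 : z ^ (m + 1) - z * t ^ m = 0 := by linear_combination h1
    have h4 : t ^ (m + 1) - z ^ m * t = 0 := by linear_combination (-t) * h2
    rw [h3, h4, zero_pow (by omega)]

end additive

section generic

/-- The generic orbit never reaches the origin. -/
lemma generic_orbit {F : Type*} [Field F] (q : ℕ) (hq1 : 1 < q) (k : ℕ) :
    ∃ (a : ℕ) (U V : Polynomial F),
      (step q)^[k] ((Polynomial.X : Polynomial F), Polynomial.X ^ q) =
      (Polynomial.X ^ (a + 1) * (1 + Polynomial.X * U), Polynomial.X ^ (a + 2) * V) := by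
  obtain ⟨m, rfl⟩ : ∃ m, q = m + 2 := ⟨q - 2, by omega⟩
  induction k with
  | zero =>
    refine ⟨0, 0, Polynomial.X ^ m, ?_⟩
    simp only [Function.iterate_zero, id_eq]
    ext1
    · simp
    · simp only
      ring
  | succ k ih =>
    obtain ⟨a, U, V, h⟩ := ih
    rw [Function.iterate_succ_apply', h, step]
    simp only
    obtain ⟨W, hW⟩ : ∃ W, (1 + Polynomial.X * U) ^ (m + 2) = 1 + Polynomial.X * W := by
      have : Polynomial.X ∣ (1 + Polynomial.X * U) ^ (m + 2) - 1 := by
        have h1 := sub_dvd_pow_sub_pow (1 + Polynomial.X * U) 1 (m + 2)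
        rw [one_pow] at h1
        refine Dvd.dvd.trans ?_ h1
        exact ⟨U, by ring⟩
      obtain ⟨W, hW⟩ := this
      exact ⟨W, by linear_combination hW⟩
    refine ⟨a * (m + 2) + (m + 1), W - Polynomial.X ^ m * (1 + Polynomial.X * U) * V ^ (m + 1),
      Polynomial.X ^ (((a + 1) * (m + 2) + 1) * (m + 1)) *
        (Polynomial.X ^ (m + 1) * V ^ (m + 2) - (1 + Polynomial.X * U) ^ (m + 1) * V) ^ (m + 2),
      ?_⟩
    have em : m + 2 - 1 = m + 1 := by omega
    rw [em]
    ext1
    · simp only
      rw [mul_pow, hW, mul_pow, ← pow_mul, ← pow_mul]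
      have e1 : (a + 1) * (m + 2) = a * (m + 2) + (m + 1) + 1 := by ring
      have e2 : (a + 2) * (m + 1) = (a * (m + 2) + (m + 1) + 1) + m - a := by
        have : (a + 2) * (m + 1) + a = (a * (m + 2) + (m + 1) + 1) + m := by ring
        omega
      have e3 : (Polynomial.X : Polynomial F) ^ (a + 1) * Polynomial.X ^ ((a + 2) * (m + 1)) =
          Polynomial.X ^ (a * (m + 2) + (m + 1) + 1) * Polynomial.X ^ (m + 1) := by
        rw [← pow_add, ← pow_add]
        congr 1
        ring
      rw [e1]
      linear_combination (-(1 + Polynomial.X * U) * V ^ (m + 1)) * e3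
    · simp only
      have e1 : (Polynomial.X ^ (a + 2) * V) ^ (m + 2) -
          (Polynomial.X ^ (a + 1) * (1 + Polynomial.X * U)) ^ (m + 1) *
            (Polynomial.X ^ (a + 2) * V) =
          Polynomial.X ^ ((a + 1) * (m + 2) + 1) *
            (Polynomial.X ^ (m + 1) * V ^ (m + 2) - (1 + Polynomial.X * U) ^ (m + 1) * V) := by
        rw [mul_pow, mul_pow, ← pow_mul, ← pow_mul]
        have e2 : (a + 2) * (m + 2) = ((a + 1) * (m + 2) + 1) + (m + 1) := by ring
        have e3 : ((a + 1) * (m + 2) + 1) = (a + 1) * (m + 1) + (a + 2) := by ring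
        rw [e2, pow_add, e3, pow_add]
        ring
      rw [e1, mul_pow, ← pow_mul]
      have e4 : ((a + 1) * (m + 2) + 1) * (m + 2) =
          (a * (m + 2) + (m + 1) + 2) + ((a + 1) * (m + 2) + 1) * (m + 1) := by ring
      rw [e4, pow_add, mul_assoc]

end generic

section main

variable {F : Type*} [Field F]

/-- The pair of polynomials defining the map `T`. -/
noncomputable def polyT (F : Type*) [Field F] (q : ℕ) : Fin 2 → MvPolynomial (Fin 2) F :=
  ![X 0 ^ q - X 0 * X 1 ^ (q - 1), (X 1 ^ q - X 0 ^ (q - 1) * X 1) ^ q]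

/-- The ideal of the curve `y = x ^ q`. -/
noncomputable def idealY (F : Type*) [Field F] (q : ℕ) : Ideal (MvPolynomial (Fin 2) F) :=
  Ideal.span {X 1 - X 0 ^ q}

lemma geomMap_polyT (q : ℕ) (P : Fin 2 → AlgebraicClosure F) :
    geomMap (polyT F q) P = ![(step q (P 0, P 1)).1, (step q (P 0, P 1)).2] := by
  funext i
  fin_cases i <;> simp [geomMap, polyT, step]

lemma geomMap_iterate (q k : ℕ) (a b : AlgebraicClosure F) :
    (geomMap (polyT F q))^[k] ![a, b] =
      ![((step q)^[k] (a, b)).1, ((step q)^[k] (a, b)).2] := by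
  induction k generalizing a b with
  | zero => simp
  | succ k ih =>
    rw [Function.iterate_succ_apply, geomMap_polyT, Function.iterate_succ_apply]
    exact ih _ _

lemma mem_geomPoints (q : ℕ) (P : Fin 2 → AlgebraicClosure F) :
    P ∈ geomPoints (idealY F q) ↔ P 1 = P 0 ^ q := by
  constructor
  · intro h
    have := h (X 1 - X 0 ^ q) (Ideal.subset_span rfl)
    simp only [map_sub, map_pow, aeval_X] at this
    exact sub_eq_zero.1 this
  · intro h p hp
    have hle : idealY F q ≤ RingHom.ker (aeval P : MvPolynomial (Fin 2) F →ₐ[F] _).toRingHom := by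
      rw [idealY, Ideal.span_le]
      rintro _ rfl
      simp [RingHom.mem_ker, h]
    exact hle hp

end main

lemma exists_frobenius_fixed {F : Type*} [Field F] [Fintype F] (s : AlgebraicClosure F) :
    ∃ n : ℕ, 1 ≤ n ∧ s ^ Fintype.card F ^ n = s := by
  classical
  have hint : IsIntegral F s := Algebra.IsIntegral.isIntegral s
  have hfd : FiniteDimensional F (IntermediateField.adjoin F {s}) :=
    IntermediateField.adjoin.finiteDimensional hint
  have hfin : Finite (IntermediateField.adjoin F {s}) := Module.finite_of_finite F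
  have hft : Fintype (IntermediateField.adjoin F {s}) := Fintype.ofFinite _
  refine ⟨Module.finrank F (IntermediateField.adjoin F {s}), Module.finrank_pos, ?_⟩
  rw [← Module.card_eq_pow_finrank (K := F) (V := IntermediateField.adjoin F {s})]
  have h := FiniteField.pow_card (IntermediateField.AdjoinSimple.gen F s)
  have h' := congrArg (algebraMap (IntermediateField.adjoin F {s}) (AlgebraicClosure F)) h
  rwa [map_pow, IntermediateField.AdjoinSimple.algebraMap_gen] at h'

/-- **Main theorem.** For every finite field `F` there are a two-variable polynomial map over `F`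
and a nonempty closed subvariety of the affine plane over `F` which is geometrically nilpotent
but not nilpotent. -/
theorem result (F : Type) [Field F] [Finite F] :
    ∃ (T : Fin 2 → MvPolynomial (Fin 2) F) (I : Ideal (MvPolynomial (Fin 2) F)),
      (geomPoints I).Nonempty ∧ IsGeometricallyNilpotentFor T (geomPoints I) ∧
        ¬ IsNilpotentFor T (geomPoints I) := by
  classical
  have : Fintype F := Fintype.ofFinite F
  obtain ⟨p, hp, r, hpr, hcard⟩ : ∃ p, ∃ _ : Fact p.Prime, ∃ r : ℕ, CharP F p ∧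
      Fintype.card F = p ^ r := by
    obtain ⟨p, hchar⟩ := CharP.exists F
    obtain ⟨r, hprime, hr⟩ := FiniteField.card F p
    exact ⟨p, ⟨hprime⟩, r, hchar, hr⟩
  have hcharK : CharP (AlgebraicClosure F) p :=
    charP_of_injective_algebraMap (algebraMap F (AlgebraicClosure F)).injective p
  obtain ⟨q, hq⟩ : ∃ q, q = Fintype.card F := ⟨_, rfl⟩
  have hq1 : 1 < q := by rw [hq]; exact Fintype.one_lt_card
  have hqp : q = p ^ r := by rw [hq, hcard]
  have hmem : ∀ s : AlgebraicClosure F, ![s, s ^ q] ∈ geomPoints (idealY F q) := by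
    intro s
    rw [mem_geomPoints]
    simp
  have hfix : geomMap (polyT F q) ![0, 0] = ![0, 0] := by
    rw [geomMap_polyT]
    simp [step, zero_pow (show q ≠ 0 by omega)]
  refine ⟨polyT F q, idealY F q, ⟨_, hmem 0⟩, ⟨![0, 0], hfix, ?_⟩, ?_⟩
  · intro Q hQ
    rw [mem_geomPoints] at hQ
    obtain ⟨n, hn, hs⟩ := exists_frobenius_fixed (Q 0)
    rw [← hq] at hs
    obtain ⟨k, hk, hk0⟩ := orbit_hits_zero p r q hqp hq1 (Q 0) n hn hs
    refine ⟨k, hk, ?_⟩
    have hQ' : Q = ![Q 0, Q 0 ^ q] := by
      funext i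
      fin_cases i
      · rfl
      · exact hQ
    rw [hQ', geomMap_iterate, hk0]
  · rintro ⟨P, -, k, -, hP⟩
    have hall : ∀ s : AlgebraicClosure F, (geomMap (polyT F q))^[k] ![s, s ^ q] = P := by
      intro s
      have : (geomMap (polyT F q))^[k] ![s, s ^ q] ∈ (geomMap (polyT F q))^[k] ''
          geomPoints (idealY F q) := Set.mem_image_of_mem _ (hmem s)
      rw [hP] at this
      exact this
    have hP0 : P = ![0, 0] := by
      have h0 := hall 0
      rw [zero_pow (show q ≠ 0 by omega), Function.iterate_fixed hfix] at h0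
      exact h0.symm
    obtain ⟨a, U, V, hUV⟩ := generic_orbit (F := AlgebraicClosure F) q hq1 k
    obtain ⟨Z, hZ⟩ : ∃ Z : Polynomial (AlgebraicClosure F),
      Z = Polynomial.X ^ (a + 1) * (1 + Polynomial.X * U) := ⟨_, rfl⟩
    have hZ0 : ∀ s : AlgebraicClosure F, Z.eval s = 0 := by
      intro s
      have h1 := hall s
      rw [geomMap_iterate, hP0] at h1
      have h2 := congrFun h1 0
      simp only [Matrix.cons_val_zero] at h2
      have h3 := step_iterate_map (Polynomial.evalRingHom s) q k
        ((Polynomial.X : Polynomial (AlgebraicClosure F)), Polynomial.X ^ q)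
      simp only [Polynomial.coe_evalRingHom, Polynomial.eval_X, Polynomial.eval_pow] at h3
      rw [hUV] at h3
      rw [h3] at h2
      rw [hZ]
      exact h2
    have hZz : Z = 0 := Polynomial.funext (by intro s; rw [hZ0 s, Polynomial.eval_zero])
    rw [hZ] at hZz
    rcases mul_eq_zero.1 hZz with h | h
    · exact pow_ne_zero _ Polynomial.X_ne_zero h
    · have := congrArg (Polynomial.eval 0) h
      simp at this

end Pool.Agent.Results.MP_12bcff_ag.TwoVariable
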